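import Pool.Agent.H84.Sym.Defs2
import Pool.Agent.H91.Sym.A1
import Pool.Agent.H91.Sym.A2
import Pool.Agent.H29.Sym.BC
import Pool.Agent.H29.Sym.S
import Pool.Agent.H91.Sym.P1
import Pool.Agent.H91.Sym.P2

/-! Module P3b of project SYM2: covariance estimate with symmetries. -/

set_option autoImplicit false

open MeasureTheory Set Filter Topology
open scoped ContDiff Pointwise

namespace Pool.Agent.H84.Sym

open Pool.Agent.H84

variable {E : Type*} [NormedAddCommGroup E] [InnerProductSpace ℝ E]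
    [FiniteDimensional ℝ E] [MeasurableSpace E] [BorelSpace E]
variable {ι : Type*} [Fintype ι]

namespace P20

open C29 S29

/-- Growth functions are integrable. -/
theorem gr_int {U : E → ℝ} {t C : ℝ} (hU : Pot U t C) {F : E → ℝ} (hF : Continuous F)
    (hg : Gr F) : Integrable F (mu U) := by
  obtain ⟨A, B, h⟩ := hg
  exact integrable_exp_growth hU hF h

omit [InnerProductSpace ℝ E] [FiniteDimensional ℝ E] [MeasurableSpace E] [BorelSpace E] in
theorem gr_const (c : ℝ) : Gr (fun _ : E => c) := ⟨|c|, 0, fun x => by simp⟩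

omit [InnerProductSpace ℝ E] [FiniteDimensional ℝ E] [MeasurableSpace E] [BorelSpace E] in
theorem gr_mul {F G : E → ℝ} (hF : Gr F) (hG : Gr G) : Gr (fun x => F x * G x) := by
  obtain ⟨A, B, h⟩ := hF
  obtain ⟨A', B', h'⟩ := hG
  refine ⟨A * A', B + B', fun x => ?_⟩
  rw [abs_mul, add_mul, Real.exp_add]
  calc |F x| * |G x| ≤ (A * Real.exp (B * ‖x‖)) * (A' * Real.exp (B' * ‖x‖)) :=
        mul_le_mul (h x) (h' x) (abs_nonneg _) ((abs_nonneg _).trans (h x))
    _ = _ := by ring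

omit [InnerProductSpace ℝ E] [FiniteDimensional ℝ E] [MeasurableSpace E] [BorelSpace E] in
theorem gr_sq {F : E → ℝ} (hF : Gr F) : Gr (fun x => F x ^ 2) := by
  have := gr_mul hF hF
  simpa only [← pow_two] using this

omit [InnerProductSpace ℝ E] [FiniteDimensional ℝ E] [MeasurableSpace E] [BorelSpace E] in
theorem gr_add {F G : E → ℝ} (hF : Gr F) (hG : Gr G) : Gr (fun x => F x + G x) := by
  obtain ⟨A, B, h⟩ := hF
  obtain ⟨A', B', h'⟩ := hG
  have hA : 0 ≤ A := by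
    have := (abs_nonneg _).trans (h 0)
    simpa using this
  have hA' : 0 ≤ A' := by
    have := (abs_nonneg _).trans (h' 0)
    simpa using this
  refine ⟨A + A', max B B', fun x => (abs_add_le _ _).trans ?_⟩
  have h1 : Real.exp (B * ‖x‖) ≤ Real.exp (max B B' * ‖x‖) :=
    Real.exp_le_exp.2 (mul_le_mul_of_nonneg_right (le_max_left _ _) (norm_nonneg _))
  have h2 : Real.exp (B' * ‖x‖) ≤ Real.exp (max B B' * ‖x‖) :=
    Real.exp_le_exp.2 (mul_le_mul_of_nonneg_right (le_max_right _ _) (norm_nonneg _))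
  have h3 := mul_le_mul_of_nonneg_left h1 hA
  have h4 := mul_le_mul_of_nonneg_left h2 hA'
  have h5 := h x
  have h6 := h' x
  rw [add_mul]
  linarith

omit [InnerProductSpace ℝ E] [FiniteDimensional ℝ E] [MeasurableSpace E] [BorelSpace E] in
theorem gr_neg {F : E → ℝ} (hF : Gr F) : Gr (fun x => -F x) := by
  obtain ⟨A, B, h⟩ := hF
  exact ⟨A, B, fun x => by rw [abs_neg]; exact h x⟩

omit [InnerProductSpace ℝ E] [FiniteDimensional ℝ E] [MeasurableSpace E] [BorelSpace E] in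
theorem gr_sub {F G : E → ℝ} (hF : Gr F) (hG : Gr G) : Gr (fun x => F x - G x) := by
  simpa only [sub_eq_add_neg] using gr_add hF (gr_neg hG)

omit [InnerProductSpace ℝ E] [FiniteDimensional ℝ E] [MeasurableSpace E] [BorelSpace E] in
theorem gr_BC {F : E → ℝ} (hF : BC F) : Gr F := by
  obtain ⟨-, A, h⟩ := hF
  exact ⟨A, 0, fun x => by simpa using h x⟩

omit [InnerProductSpace ℝ E] [FiniteDimensional ℝ E] [MeasurableSpace E] [BorelSpace E] in
theorem quad_disc {P A B : ℝ} (h : ∀ s : ℝ, 2 * s * P ≤ A + s ^ 2 * B) : P ^ 2 ≤ A * B := by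
  have h1 : ∀ s : ℝ, 0 ≤ B * (s * s) + (-2 * P) * s + A := fun s => by
    have := h s
    nlinarith
  have := discrim_le_zero h1
  unfold discrim at this
  nlinarith

omit [InnerProductSpace ℝ E] [FiniteDimensional ℝ E] [BorelSpace E] in
/-- Cauchy-Schwarz. -/
theorem cs {μ : Measure E} {F G : E → ℝ} (hF : Integrable (fun x => F x ^ 2) μ)
    (hG : Integrable (fun x => G x ^ 2) μ) (hFG : Integrable (fun x => F x * G x) μ) :
    (∫ x, F x * G x ∂μ) ^ 2 ≤ (∫ x, F x ^ 2 ∂μ) * ∫ x, G x ^ 2 ∂μ := by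
  apply quad_disc
  intro s
  rw [← integral_const_mul, ← integral_const_mul, ← integral_add hF (hG.const_mul _)]
  refine integral_mono (hFG.const_mul _) (hF.add (hG.const_mul _)) fun x => ?_
  simp only
  nlinarith [sq_nonneg (F x - s * G x)]

section

variable (b : OrthonormalBasis ι ℝ E) {V k u : E → ℝ} {t C : ℝ}

theorem lin_int (hV : Pot V t C) (hu : Tst u) : ∫ x, LO b V u x ∂(mu V) = 0 := by
  have hV1 : ContDiff ℝ 1 V := hV.smooth.of_le (by norm_num)
  have h := green b (f := fun _ => (1 : ℝ)) hV1 (by simpa using contDiff_infty.mp hu.1 2)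
    contDiff_const (Or.inl hu.2)
  have h2 : ∀ (e : E) x, D e (fun _ => (1 : ℝ)) x = 0 := by
    intro e x
    simp [D]
  simpa [h2] using h

/-- The residual identity. -/
theorem res_id (hV : Pot V t C) [IsProbabilityMeasure (mu V)] (hk : ContDiff ℝ 1 k)
    (hkg : Gr k) (hu : Tst u) :
    ∫ x, (LO b V u x + (k x - ∫ y, k y ∂(mu V))) ^ 2 ∂(mu V) =
      (∫ x, (LO b V u x) ^ 2 ∂(mu V))
        - 2 * (∫ x, (∑ i, D (b i) u x * D (b i) k x) ∂(mu V))
        + ((∫ x, k x ^ 2 ∂(mu V)) - (∫ x, k x ∂(mu V)) ^ 2) := by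
  have hV1 : ContDiff ℝ 1 V := hV.smooth.of_le (by norm_num)
  have hL := LO_BC b hV1 hu
  set c := ∫ y, k y ∂(mu V) with hc
  have hg := green b hV1 (by simpa using contDiff_infty.mp hu.1 2) hk (Or.inl hu.2)
  have h0 := lin_int b hV hu
  have i1 : Integrable (fun x => (LO b V u x) ^ 2) (mu V) := hL.sq.integrable _
  have i2 : Integrable (fun x => LO b V u x * k x) (mu V) :=
    gr_int hV (hL.1.mul hk.continuous) (gr_mul (gr_BC hL) hkg)
  have i3 : Integrable (fun x => LO b V u x) (mu V) := hL.integrable _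
  have i4 : Integrable (fun x => k x ^ 2) (mu V) :=
    gr_int hV (hk.continuous.pow 2) (gr_sq hkg)
  have i5 : Integrable k (mu V) := gr_int hV hk.continuous hkg
  have e : ∀ x, (LO b V u x + (k x - c)) ^ 2 = (((LO b V u x) ^ 2 + 2 * (LO b V u x * k x))
      - 2 * c * LO b V u x) + ((k x ^ 2 - 2 * c * k x) + c ^ 2) := fun x => by ring
  rw [funext e]
  have j1 : Integrable (fun x => (LO b V u x) ^ 2 + 2 * (LO b V u x * k x)) (mu V) :=
    i1.add (i2.const_mul 2)
  have j2 : Integrable (fun x => ((LO b V u x) ^ 2 + 2 * (LO b V u x * k x))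
      - 2 * c * LO b V u x) (mu V) := j1.sub (i3.const_mul (2 * c))
  have j3 : Integrable (fun x => k x ^ 2 - 2 * c * k x) (mu V) := i4.sub (i5.const_mul (2 * c))
  have j4 : Integrable (fun x => (k x ^ 2 - 2 * c * k x) + c ^ 2) (mu V) :=
    j3.add (integrable_const _)
  rw [integral_add j2 j4, integral_sub j1 (i3.const_mul (2 * c)),
    integral_add i1 (i2.const_mul 2), integral_add j3 (integrable_const _),
    integral_sub i4 (i5.const_mul (2 * c)), integral_const_mul, integral_const_mul,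
    integral_const_mul, integral_const, hg, h0, ← hc]
  simp only [probReal_univ, smul_eq_mul, one_mul]
  ring

omit [FiniteDimensional ℝ E] [MeasurableSpace E] [BorelSpace E] in
/-- The quadratic form at the gradient. -/
theorem hess_grad (hV : ContDiff ℝ 2 V) (x : E) :
    fderiv ℝ (fderiv ℝ V) x (∑ i, D (b i) u x • b i) (∑ i, D (b i) u x • b i) =
      ∑ i, ∑ j, D (b i) (D (b j) V) x * D (b i) u x * D (b j) u x := by
  simp only [map_sum, map_smul, ContinuousLinearMap.sum_apply, ContinuousLinearMap.smul_apply,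
    smul_eq_mul, Finset.mul_sum]
  rw [Finset.sum_comm]
  refine Finset.sum_congr rfl fun i _ => Finset.sum_congr rfl fun j _ => ?_
  rw [D_D hV]
  ring

/-- The main inequality for the second derivatives of `u`. -/
theorem key_H {q : E → ℝ} {s : ℝ} (hV : Pot V t C) [IsProbabilityMeasure (mu V)]
    (hk : ContDiff ℝ 1 k) (hkg : Gr k) (hq : Continuous q) (hqg : Gr q)
    (hj : ∀ x η : E, s ≤ q x - 2 * fderiv ℝ k x η + fderiv ℝ (fderiv ℝ V) x η η)
    (hu : Tst u) :
    s + (∫ x, (∑ i, ‖fderiv ℝ (D (b i) u) x‖ ^ 2) ∂(mu V))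
        + ((∫ x, k x ^ 2 ∂(mu V)) - (∫ x, k x ∂(mu V)) ^ 2) ≤
      (∫ x, q x ∂(mu V)) + ∫ x, (LO b V u x + (k x - ∫ y, k y ∂(mu V))) ^ 2 ∂(mu V) := by
  have hV1 : ContDiff ℝ 1 V := hV.smooth.of_le (by norm_num)
  have hu1 : ContDiff ℝ 1 u := hu.1.of_le (by exact_mod_cast (le_top : (1 : ℕ∞) ≤ ⊤))
  have hb := bochner_full b hV.smooth (by simpa using contDiff_infty.mp hu.1 3) hu.2
  have hr := res_id b hV hk hkg hu
  have i1 : Integrable q (mu V) := gr_int hV hq hqg
  have i2 : Integrable (fun x => ∑ i, D (b i) u x * D (b i) k x) (mu V) := by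
    apply integrable_finsetSum
    intro i _
    exact integrable_mu hV1.continuous ((D_cont hu1 _).mul (D_cont hk _)) (D_supp hu.2 _).mul_right
  have i3 : Integrable (fun x => ∑ i, ∑ j, D (b i) (D (b j) V) x * D (b i) u x * D (b j) u x)
      (mu V) := by
    apply integrable_finsetSum
    intro i _
    apply integrable_finsetSum
    intro j _
    exact integrable_mu hV1.continuous
      (((contDiff_D (m := 0) (contDiff_D (m := 1) hV.smooth (by norm_num) (b j)) (by norm_num)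
        (b i)).continuous.mul (D_cont hu1 _)).mul (D_cont hu1 _)) (D_supp hu.2 _).mul_left
  have hs : s ≤ ∫ x, ((q x - 2 * ∑ i, D (b i) u x * D (b i) k x)
      + ∑ i, ∑ j, D (b i) (D (b j) V) x * D (b i) u x * D (b j) u x) ∂(mu V) := by
    have h1 : ∫ _x, s ∂(mu V) = s := by simp
    rw [← h1]
    refine integral_mono (integrable_const _) ((i1.sub (i2.const_mul 2)).add i3) fun x => ?_
    have h2 := hj x (∑ i, D (b i) u x • b i)
    rw [hess_grad b hV.smooth] at h2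
    have h3 : fderiv ℝ k x (∑ i, D (b i) u x • b i) = ∑ i, D (b i) u x * D (b i) k x := by
      rw [map_sum]
      refine Finset.sum_congr rfl fun i _ => ?_
      rw [map_smul, smul_eq_mul]
      rfl
    rw [h3] at h2
    exact h2
  have i12 : Integrable (fun x => q x - 2 * ∑ i, D (b i) u x * D (b i) k x) (mu V) :=
    i1.sub (i2.const_mul 2)
  rw [integral_add i12 i3, integral_sub i1 (i2.const_mul 2), integral_const_mul] at hs
  linarith

/-- Poincare for the derivatives of `u`. -/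
theorem grad_le {κ : ℝ} (hV : Pot V t C) [IsProbabilityMeasure (mu V)]
    (hpc : GPC (mu V) κ) (hu : Tst u) :
    ∫ x, ‖fderiv ℝ u x‖ ^ 2 ∂(mu V) ≤
      κ * (∫ x, (∑ i, ‖fderiv ℝ (D (b i) u) x‖ ^ 2) ∂(mu V)) +
        ‖∑ i, (∫ x, D (b i) u x ∂(mu V)) • b i‖ ^ 2 := by
  have hM : (mu V).real univ = 1 := by simp
  have hu1 : ContDiff ℝ 1 u := hu.1.of_le (by exact_mod_cast (le_top : (1 : ℕ∞) ≤ ⊤))
  have hgr : ∀ i, BC (fun x => ‖fderiv ℝ (D (b i) u) x‖ ^ 2) := fun i =>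
    grad_BC ((tst_D hu (b i)).1.of_le (by exact_mod_cast (le_top : (1 : ℕ∞) ≤ ⊤)))
      (tst_D hu (b i)).2
  rw [integral_finsetSum _ (fun i _ => (hgr i).integrable (mu V)), normsq_expand b,
    Finset.mul_sum, ← Finset.sum_add_distrib]
  have hI : ∑ i, ∫ x, D (b i) u x ^ 2 ∂(mu V) = ∫ x, ‖fderiv ℝ u x‖ ^ 2 ∂(mu V) := by
    rw [← integral_finsetSum _ (fun i _ => ((D_BC hu1 hu.2 (b i)).sq).integrable (mu V))]
    simp only [norm_fderiv_sq b u]
  rw [← hI]
  refine Finset.sum_le_sum fun i _ => ?_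
  have := hpc (D (b i) u)
    ((tst_D hu (b i)).1.of_le (by exact_mod_cast (le_top : (1 : ℕ∞) ≤ ⊤))) (tst_D hu (b i)).2
  rw [hM, one_mul, one_mul] at this
  linarith

/-- The displaced function: the mean gradient almost satisfies the symmetries. -/
theorem disp {κ R : ℝ} (hV : Pot V t C) [IsProbabilityMeasure (mu V)] (hκ : 0 ≤ κ)
    (hpc : GPC (mu V) κ) (hk : ContDiff ℝ 1 k) (hkg : Gr k) (hu : Tst u) (g : E ≃ₗᵢ[ℝ] E)
    (hg : ∀ x, V (g x) = V x) (hkg' : ∀ x, k (g x) = k x)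
    (hR : ∫ x, (LO b V u x + (k x - ∫ y, k y ∂(mu V))) ^ 2 ∂(mu V) ≤ R) :
    ‖g.symm (∑ i, (∫ x, D (b i) u x ∂(mu V)) • b i)
      - ∑ i, (∫ x, D (b i) u x ∂(mu V)) • b i‖ ^ 2 ≤ 4 * κ * R := by
  have hM : (mu V).real univ = 1 := by simp
  have hV1 : ContDiff ℝ 1 V := hV.smooth.of_le (by norm_num)
  have hu1 : ContDiff ℝ 1 u := hu.1.of_le (by exact_mod_cast (le_top : (1 : ℕ∞) ≤ ⊤))
  have hu2 : ContDiff ℝ 2 u := by simpa using contDiff_infty.mp hu.1 2
  have hug : Tst (fun y => u (g y)) := ⟨hu.1.comp g.contDiff,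
    hu.2.comp_homeomorph g.toHomeomorph⟩
  have hug1 : ContDiff ℝ 1 (fun y => u (g y)) :=
    hug.1.of_le (by exact_mod_cast (le_top : (1 : ℕ∞) ≤ ⊤))
  have hf : Tst (fun y => u (g y) - u y) := ⟨hug.1.sub hu.1, hug.2.sub hu.2⟩
  have hf1 : ContDiff ℝ 1 (fun y => u (g y) - u y) :=
    hf.1.of_le (by exact_mod_cast (le_top : (1 : ℕ∞) ≤ ⊤))
  have hL := LO_BC b hV1 hu
  have hLf := LO_BC b hV1 hf
  have hDsub : ∀ e x, D e (fun y => u (g y) - u y) x = D e (fun y => u (g y)) x - D e u x := by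
    intro e x
    simp only [D]
    rw [fderiv_fun_sub (hug1.differentiable (by norm_num)).differentiableAt
      (hu1.differentiable (by norm_num)).differentiableAt]
    rfl
  have hLOsub : ∀ x, LO b V (fun y => u (g y) - u y) x = LO b V u (g x) - LO b V u x := by
    intro x
    rw [← LO_comp_isom b g hV1 hg hu2 x]
    unfold LO
    have h1 : ∀ i, D (b i) (fun y => u (g y) - u y) =
        fun x => D (b i) (fun y => u (g y)) x - D (b i) u x := fun i => funext (hDsub (b i))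
    have h2 : ∀ i, D (b i) (D (b i) (fun y => u (g y) - u y)) x =
        D (b i) (D (b i) (fun y => u (g y))) x - D (b i) (D (b i) u) x := by
      intro i
      rw [h1 i]
      have h3 := fderiv_fun_sub (𝕜 := ℝ) (x := x)
        (((tst_D hug (b i)).1.differentiable (by simp)).differentiableAt)
        (((tst_D hu (b i)).1.differentiable (by simp)).differentiableAt)
      exact congrArg (fun ℓ => ℓ (b i)) h3
    simp only [h2, hDsub, mul_sub, Finset.sum_sub_distrib]
    ring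
  set c := ∫ y, k y ∂(mu V) with hc
  have hgres : Gr (fun x => LO b V u x + (k x - c)) :=
    gr_add (gr_BC hL) (gr_sub hkg (gr_const c))
  have hcres : Continuous (fun x => LO b V u x + (k x - c)) :=
    hL.1.add (hk.continuous.sub continuous_const)
  have i1 : Integrable (fun x => (LO b V u x + (k x - c)) ^ 2) (mu V) :=
    gr_int hV (hcres.pow 2) (gr_sq hgres)
  have hgresg : Gr (fun x => LO b V u (g x) + (k (g x) - c)) := by
    obtain ⟨A, B, h⟩ := hgres
    exact ⟨A, B, fun x => by simpa using h (g x)⟩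
  have i2 : Integrable (fun x => (LO b V u (g x) + (k (g x) - c)) ^ 2) (mu V) :=
    gr_int hV ((hcres.comp g.continuous).pow 2) (gr_sq hgresg)
  have e1 : ∫ x, (LO b V u (g x) + (k (g x) - c)) ^ 2 ∂(mu V) =
      ∫ x, (LO b V u x + (k x - c)) ^ 2 ∂(mu V) :=
    integral_comp_isom hV.smooth.continuous g hg (fun x => (LO b V u x + (k x - c)) ^ 2)
  have hA : ∫ x, (LO b V (fun y => u (g y) - u y) x) ^ 2 ∂(mu V) ≤ 4 * R := by
    calc _ ≤ ∫ x, (2 * (LO b V u (g x) + (k (g x) - c)) ^ 2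
          + 2 * (LO b V u x + (k x - c)) ^ 2) ∂(mu V) := by
          refine integral_mono (hLf.sq.integrable (mu V))
            ((i2.const_mul _).add (i1.const_mul _)) fun x => ?_
          simp only
          rw [hLOsub x, hkg' x]
          nlinarith [sq_nonneg ((LO b V u (g x) + (k x - c)) + (LO b V u x + (k x - c)))]
      _ = 4 * ∫ x, (LO b V u x + (k x - c)) ^ 2 ∂(mu V) := by
          rw [integral_add (i2.const_mul _) (i1.const_mul _), integral_const_mul,
            integral_const_mul, e1]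
          ring
      _ ≤ _ := by linarith
  set p := ∑ i, (∫ x, D (b i) u x ∂(mu V)) • b i with hp
  have hmean : ∀ e, ∫ x, D e (fun y => u (g y) - u y) x ∂(mu V) = inner ℝ (g.symm p - p) e := by
    intro e
    have j1 := (D_BC hug1 hug.2 e).integrable (mu V)
    have j2 := (D_BC hu1 hu.2 e).integrable (mu V)
    rw [funext (hDsub e), integral_sub j1 j2, mean_grad b hu e, inner_sub_left]
    congr 1
    rw [funext (fun x => D_comp_isom g hu1 e x),
      integral_comp_isom hV.smooth.continuous g hg (D (g e) u), mean_grad b hu (g e)]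
    rw [← hp, ← g.symm.inner_map_map p (g e), g.symm_apply_apply]
  have hG : ‖g.symm p - p‖ ^ 2 ≤ ∫ x, ‖fderiv ℝ (fun y => u (g y) - u y) x‖ ^ 2 ∂(mu V) := by
    have k1 : ‖g.symm p - p‖ ^ 2 = ∑ i, (inner ℝ (g.symm p - p) (b i)) ^ 2 := by
      rw [← b.sum_sq_norm_inner_left (g.symm p - p)]
      simp
    have k2 : ∫ x, ‖fderiv ℝ (fun y => u (g y) - u y) x‖ ^ 2 ∂(mu V) =
        ∑ i, ∫ x, (D (b i) (fun y => u (g y) - u y) x) ^ 2 ∂(mu V) := by
      rw [← integral_finsetSum _ (fun i _ => ((D_BC hf1 hf.2 (b i)).sq).integrable (mu V))]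
      simp only [norm_fderiv_sq b (fun y => u (g y) - u y)]
    rw [k1, k2]
    refine Finset.sum_le_sum fun i _ => ?_
    rw [← hmean]
    exact sq_int_le (mu V) (D_BC hf1 hf.2 (b i))
  set v : E → ℝ := fun y => u (g y) - u y with hv
  set J := ∫ x, ‖fderiv ℝ v x‖ ^ 2 ∂(mu V) with hJ
  have hJ0 : 0 ≤ J := integral_nonneg fun x => sq_nonneg _
  -- Green
  have hgr : J = - ∫ x, LO b V v x * (v x - ∫ y, v y ∂(mu V)) ∂(mu V) := by
    rw [green_sub b hV1 hf hf1, neg_neg, hJ]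
    congr 1
    funext x
    rw [norm_fderiv_sq b]
    refine Finset.sum_congr rfl fun i _ => ?_
    ring
  have hφ : BC (fun x => v x - ∫ y, v y ∂(mu V)) := (tst_BC hf).sub (BC.const _)
  have hcs := cs (μ := mu V) (F := LO b V v) (G := fun x => v x - ∫ y, v y ∂(mu V))
    (hLf.sq.integrable _) (hφ.sq.integrable _) ((hLf.mul hφ).integrable _)
  have h2 := rel2 hV hf1 hf.2 (∫ y, v y ∂(mu V)) (by rw [hM, mul_one])
  have h3 := hpc v hf1 hf.2
  rw [h2, hM, one_mul, one_mul] at h3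
  have h4 : J ^ 2 ≤ (4 * R) * (κ * J) := by
    calc J ^ 2 = (∫ x, LO b V v x * (v x - ∫ y, v y ∂(mu V)) ∂(mu V)) ^ 2 := by
          rw [hgr]; ring
      _ ≤ _ := hcs.trans (mul_le_mul hA h3 (integral_nonneg fun x => sq_nonneg _)
          ((integral_nonneg fun x => sq_nonneg _).trans hA))
  have h5 : J ≤ 4 * κ * R := by
    rcases hJ0.eq_or_lt with h | h
    · rw [← h]
      have : 0 ≤ R := (integral_nonneg fun x => sq_nonneg _).trans hR
      positivity
    · have : J * J ≤ (4 * κ * R) * J := by nlinarith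
      exact le_of_mul_le_mul_right this h
  exact hG.trans h5

/-- The covariance. -/
theorem cov_le {R A : ℝ} {f : E → ℝ} (hV : Pot V t C) [IsProbabilityMeasure (mu V)]
    (hk : ContDiff ℝ 1 k) (hkg : Gr k) (hu : Tst u) (hf : ContDiff ℝ 1 f)
    (hc : HasCompactSupport f)
    (hR : ∫ x, (LO b V u x + (k x - ∫ y, k y ∂(mu V))) ^ 2 ∂(mu V) ≤ R)
    (hA : ∫ x, ‖fderiv ℝ u x‖ ^ 2 ∂(mu V) ≤ A) :
    |(∫ x, f x * k x ∂(mu V)) - (∫ x, f x ∂(mu V)) * ∫ x, k x ∂(mu V)| ≤
      Real.sqrt ((∫ x, f x ^ 2 ∂(mu V)) * R) +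
        Real.sqrt ((∫ x, ‖fderiv ℝ f x‖ ^ 2 ∂(mu V)) * A) := by
  have hV1 : ContDiff ℝ 1 V := hV.smooth.of_le (by norm_num)
  have hu1 : ContDiff ℝ 1 u := hu.1.of_le (by exact_mod_cast (le_top : (1 : ℕ∞) ≤ ⊤))
  have hL := LO_BC b hV1 hu
  have hfB : BC f := BC.of_compact hf.continuous hc
  set c := ∫ y, k y ∂(mu V) with hcdef
  have hgr : ∫ x, LO b V u x * f x ∂(mu V) = - ∫ x, (∑ i, D (b i) u x * D (b i) f x) ∂(mu V) :=
    green b hV1 (by simpa using contDiff_infty.mp hu.1 2) hf (Or.inl hu.2)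
  have hgres : Gr (fun x => LO b V u x + (k x - c)) :=
    gr_add (gr_BC hL) (gr_sub hkg (gr_const c))
  have hcres : Continuous (fun x => LO b V u x + (k x - c)) :=
    hL.1.add (hk.continuous.sub continuous_const)
  have i1 : Integrable (fun x => (LO b V u x + (k x - c)) ^ 2) (mu V) :=
    gr_int hV (hcres.pow 2) (gr_sq hgres)
  have i2 : Integrable (fun x => f x * (LO b V u x + (k x - c))) (mu V) :=
    gr_int hV (hf.continuous.mul hcres) (gr_mul (gr_BC hfB) hgres)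
  have i3 : Integrable (fun x => LO b V u x * f x) (mu V) := (hL.mul hfB).integrable _
  have i4 : Integrable (fun x => f x * k x) (mu V) :=
    gr_int hV (hf.continuous.mul hk.continuous) (gr_mul (gr_BC hfB) hkg)
  have i5 : Integrable f (mu V) := hfB.integrable _
  have e1 : (∫ x, f x * k x ∂(mu V)) - (∫ x, f x ∂(mu V)) * c =
      (∫ x, f x * (LO b V u x + (k x - c)) ∂(mu V)) +
        ∫ x, (∑ i, D (b i) u x * D (b i) f x) ∂(mu V) := by
    have e2 : ∀ x, f x * (LO b V u x + (k x - c)) = (LO b V u x * f x + f x * k x) - c * f x :=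
      fun x => by ring
    have i34 : Integrable (fun x => LO b V u x * f x + f x * k x) (mu V) := i3.add i4
    rw [funext e2, integral_sub i34 (i5.const_mul c), integral_const_mul,
      integral_add i3 i4, hgr]
    ring
  have h1 := cs (μ := mu V) (F := f) (G := fun x => LO b V u x + (k x - c))
    (hfB.sq.integrable _) i1 i2
  have h2 : (∫ x, (∑ i, D (b i) u x * D (b i) f x) ∂(mu V)) ^ 2 ≤
      (∫ x, ‖fderiv ℝ f x‖ ^ 2 ∂(mu V)) * ∫ x, ‖fderiv ℝ u x‖ ^ 2 ∂(mu V) :=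
    quad_disc fun s => rel3 b hV hu hf hc s
  rw [e1]
  refine (abs_add_le _ _).trans (add_le_add ?_ ?_)
  · apply Real.abs_le_sqrt
    exact h1.trans (mul_le_mul_of_nonneg_left hR (integral_nonneg fun x => sq_nonneg _))
  · apply Real.abs_le_sqrt
    exact h2.trans (mul_le_mul_of_nonneg_left hA (integral_nonneg fun x => sq_nonneg _))

end

end P20

open C29 S29 P20

theorem sec_cov {V k q : E → ℝ} {t C κ : ℝ} (hV : Pot V t C) [IsProbabilityMeasure (mu V)]
    (hk : ContDiff ℝ 1 k) (hkg : Gr k) (hq : Continuous q) (hqg : Gr q)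
    (hj : ∀ x η : E, 0 ≤ q x - 2 * fderiv ℝ k x η + fderiv ℝ (fderiv ℝ V) x η η)
    (hκ : 0 ≤ κ) (hpc : GPC (mu V) κ) {G : Set (E ≃ₗᵢ[ℝ] E)}
    (hinv : ∀ g ∈ G, ∀ x, V (g x) = V x) (hkinv : ∀ g ∈ G, ∀ x, k (g x) = k x)
    (hfix : ∀ p : E, (∀ g ∈ G, g p = p) → p = 0) {f : E → ℝ} (hf : ContDiff ℝ 1 f)
    (hc : HasCompactSupport f) :
    ((∫ x, f x * k x ∂(mu V)) - (∫ x, f x ∂(mu V)) * ∫ x, k x ∂(mu V)) ^ 2 ≤
      κ * (∫ x, ‖fderiv ℝ f x‖ ^ 2 ∂(mu V)) *
        ((∫ x, q x ∂(mu V)) - ((∫ x, k x ^ 2 ∂(mu V)) - (∫ x, k x ∂(mu V)) ^ 2)) := by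
  set b := stdOrthonormalBasis ℝ E with hb
  set Q := (∫ x, q x ∂(mu V)) - ((∫ x, k x ^ 2 ∂(mu V)) - (∫ x, k x ∂(mu V)) ^ 2) with hQ
  set A1 := ∫ x, ‖fderiv ℝ f x‖ ^ 2 ∂(mu V) with hA1
  set A0 := ∫ x, f x ^ 2 ∂(mu V) with hA0
  have hA1n : 0 ≤ A1 := integral_nonneg fun x => sq_nonneg _
  obtain ⟨c, hc0, hcp⟩ := exists_disp hfix
  have main : ∀ ε : ℝ, 0 < ε → 0 ≤ Q + ε ∧
      |(∫ x, f x * k x ∂(mu V)) - (∫ x, f x ∂(mu V)) * ∫ x, k x ∂(mu V)| ≤
      Real.sqrt (A0 * ε) + Real.sqrt (A1 * (κ * (Q + ε) + 4 * κ * ε / c ^ 2)) := by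
    intro ε hε
    obtain ⟨u, hu, hR⟩ := dense_range_gr b hV hk hkg (c := ∫ x, k x ∂(mu V)) (by simp) hε
    have h1 := key_H b hV hk hkg hq hqg hj hu
    have h2 := grad_le b hV hpc hu
    set H := ∫ x, (∑ i, ‖fderiv ℝ (D (b i) u) x‖ ^ 2) ∂(mu V) with hH
    have hH0 : 0 ≤ H := integral_nonneg fun x => Finset.sum_nonneg fun i _ => sq_nonneg _
    set p := ∑ i, (∫ x, D (b i) u x ∂(mu V)) • b i with hp
    have hHQ : H ≤ Q + ε := by rw [hQ]; linarith
    have h3 : ‖p‖ ^ 2 ≤ 4 * κ * ε / c ^ 2 := by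
      by_cases h0 : p = 0
      · rw [h0, norm_zero]
        have : 0 ≤ 4 * κ * ε / c ^ 2 := by positivity
        simpa using this
      · obtain ⟨g, hg, hgp⟩ := hcp p h0
        have h4 := disp b hV hκ hpc hk hkg hu g (hinv g hg) (hkinv g hg) hR
        rw [← hp] at h4
        rw [le_div_iff₀ (by positivity)]
        have h5 : (c * ‖p‖) ^ 2 ≤ ‖g.symm p - p‖ ^ 2 := by
          have : 0 ≤ c * ‖p‖ := by positivity
          exact pow_le_pow_left₀ this hgp 2
        nlinarith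
    have h6 : ∫ x, ‖fderiv ℝ u x‖ ^ 2 ∂(mu V) ≤ κ * (Q + ε) + 4 * κ * ε / c ^ 2 := by
      have := mul_le_mul_of_nonneg_left hHQ hκ
      linarith
    exact ⟨hH0.trans hHQ, cov_le b hV hk hkg hu hf hc hR h6⟩
  have hQ0 : 0 ≤ Q := by
    by_contra hneg
    push Not at hneg
    have := (main (-Q / 2) (by linarith)).1
    linarith
  have hcont : Continuous fun ε : ℝ =>
      Real.sqrt (A0 * ε) + Real.sqrt (A1 * (κ * (Q + ε) + 4 * κ * ε / c ^ 2)) := by
    fun_prop
  have hlim : |(∫ x, f x * k x ∂(mu V)) - (∫ x, f x ∂(mu V)) * ∫ x, k x ∂(mu V)| ≤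
      Real.sqrt (A0 * 0) + Real.sqrt (A1 * (κ * (Q + 0) + 4 * κ * 0 / c ^ 2)) := by
    have ht := (hcont.tendsto 0).mono_left (nhdsWithin_le_nhds (s := Ioi (0 : ℝ)))
    refine ge_of_tendsto ht ?_
    filter_upwards [self_mem_nhdsWithin] with ε hε
    exact (main ε hε).2
  have hz : Real.sqrt (A0 * 0) + Real.sqrt (A1 * (κ * (Q + 0) + 4 * κ * 0 / c ^ 2)) =
      Real.sqrt (κ * A1 * Q) := by
    rw [mul_zero, Real.sqrt_zero, zero_add]
    congr 1
    ring
  rw [hz] at hlim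
  calc _ = |(∫ x, f x * k x ∂(mu V)) - (∫ x, f x ∂(mu V)) * ∫ x, k x ∂(mu V)| ^ 2 :=
        (sq_abs _).symm
    _ ≤ Real.sqrt (κ * A1 * Q) ^ 2 := pow_le_pow_left₀ (abs_nonneg _) hlim 2
    _ = _ := Real.sq_sqrt (by positivity)

end Pool.Agent.H84.Sym
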